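import Pool.Agent.MP_dbd6a6_co.H70.Spec

/-!
Integration by parts and elementary bounds for the measure.
-/

open Real MeasureTheory intervalIntegral Set

noncomputable section

namespace Pool.Agent.MP_dbd6a6_co.H78

open H92 H70

/-- Integral over a part of the support. -/
def J (y a b : ℝ) (g : ℝ → ℝ) : ℝ := ∫ θ in a..b, wt y θ * g (xx y θ)

variable {y : ℝ}

lemma cont_comp (hy : 0 < y) {g : ℝ → ℝ} (hg : ContinuousOn g (Ioi 0)) :
    Continuous fun θ => g (xx y θ) :=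
  hg.comp_continuous (continuous_xx y) fun θ => xx_pos hy θ

lemma J_int (hy : 0 < y) {g : ℝ → ℝ} (hg : ContinuousOn g (Ioi 0)) (a b : ℝ) :
    IntervalIntegrable (fun θ => wt y θ * g (xx y θ)) volume a b :=
  ((continuous_wt hy).mul (cont_comp hy hg)).intervalIntegrable a b

lemma J_add (hy : 0 < y) {g : ℝ → ℝ} (hg : ContinuousOn g (Ioi 0)) (a b c : ℝ) :
    J y a c g = J y a b g + J y b c g :=
  (integral_add_adjacent_intervals (J_int hy hg a b) (J_int hy hg b c)).symm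

lemma J_mono (hy : 0 < y) {g h : ℝ → ℝ} (hg : ContinuousOn g (Ioi 0))
    (hh : ContinuousOn h (Ioi 0)) {a b : ℝ} (hab : a ≤ b)
    (H : ∀ θ ∈ Icc a b, g (xx y θ) ≤ h (xx y θ)) : J y a b g ≤ J y a b h :=
  integral_mono_on hab (J_int hy hg a b) (J_int hy hh a b) fun θ hθ =>
    mul_le_mul_of_nonneg_left (H θ hθ) (wt_nonneg hy θ)

lemma J_nonneg (hy : 0 < y) {g : ℝ → ℝ} {a b : ℝ} (hab : a ≤ b)
    (H : ∀ θ ∈ Icc a b, 0 ≤ g (xx y θ)) : 0 ≤ J y a b g :=
  integral_nonneg hab fun θ hθ => mul_nonneg (wt_nonneg hy θ) (H θ hθ)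

lemma J_mul (y a b K : ℝ) (g : ℝ → ℝ) : J y a b (fun t => K * g t) = K * J y a b g := by
  unfold J
  rw [← intervalIntegral.integral_const_mul]
  refine intervalIntegral.integral_congr fun θ _ => ?_
  ring

lemma J_lin (hy : 0 < y) {g h : ℝ → ℝ} (hg : ContinuousOn g (Ioi 0))
    (hh : ContinuousOn h (Ioi 0)) (a b K L : ℝ) :
    J y a b (fun t => K * g t - L * h t) = K * J y a b g - L * J y a b h := by
  unfold J
  rw [← intervalIntegral.integral_const_mul, ← intervalIntegral.integral_const_mul,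
    ← integral_sub ((J_int hy hg a b).const_mul K) ((J_int hy hh a b).const_mul L)]
  refine intervalIntegral.integral_congr fun θ _ => ?_
  ring

lemma bet_eq (hy : 0 < y) : bet y = 2 + y + 2 * √(1 + y) := by
  have := sqrt_sq' hy
  rw [bet]
  linarith

lemma xx_le_bet (hy : 0 < y) (θ : ℝ) : xx y θ ≤ bet y := xx_le hy θ

lemma cont_ibp (b : ℝ) {g g' : ℝ → ℝ} (hg : ContinuousOn g (Ioi 0))
    (hc : ContinuousOn g' (Ioi 0)) :
    ContinuousOn (fun t => 3 / 2 * b * g t / t - g' t * (b - t)) (Ioi 0) :=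
  ContinuousOn.sub (ContinuousOn.div (by fun_prop) continuousOn_id fun t ht => ne_of_gt ht)
    (by fun_prop)

/-- Integration by parts. -/
lemma ibp (hy : 0 < y) {g g' : ℝ → ℝ} (hg : ∀ t, 0 < t → HasDerivAt g (g' t) t)
    (hc : ContinuousOn g' (Ioi 0)) {p : ℝ} (hp0 : 0 ≤ p) (hp : p ≤ π)
    (h0 : ∀ θ ∈ Icc 0 p, 0 ≤ g (xx y θ)) :
    0 ≤ J y 0 p fun t => 3 / 2 * bet y * g t / t - g' t * (bet y - t) := by
  have h1 := one_lt_sqrt hy
  have h2 := sqrt_sq' hy
  have hb := bet_eq hy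
  have hgc : ContinuousOn g (Ioi 0) := fun t ht => (hg t ht).continuousAt.continuousWithinAt
  have c1 := cont_comp hy hgc
  have c2 := cont_comp hy hc
  have hw := continuous_wt hy
  obtain ⟨c, hcd⟩ : ∃ c, c = 2 / π * (y * (1 + y)) / (2 * √(1 + y)) := ⟨_, rfl⟩
  have hc0 : 0 < c := by rw [hcd]; positivity
  have hwt : ∀ θ, wt y θ = c * (2 * √(1 + y)) * sin θ ^ 2 / xx y θ ^ 2 := fun θ => by
    rw [wt, hcd]
    field_simp
  have hd : ∀ θ : ℝ, HasDerivAt
      (fun θ => c * (g (xx y θ) * (bet y - xx y θ) * sin θ / xx y θ ^ 2))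
      (wt y θ * (g (xx y θ) + 2 * g (xx y θ) * (bet y - xx y θ) / xx y θ -
        g' (xx y θ) * (bet y - xx y θ)) +
        c * (g (xx y θ) * (bet y - xx y θ) * cos θ / xx y θ ^ 2)) θ := by
    intro θ
    have h5 := xx_pos hy θ
    have h3 : HasDerivAt (xx y) (2 * √(1 + y) * -sin θ) θ :=
      ((hasDerivAt_cos θ).const_mul _).const_add _
    have h4 := (hg _ h5).comp θ h3
    refine ((((h4.mul (h3.const_sub (bet y))).mul (hasDerivAt_sin θ)).div (h3.pow 2)
      (pow_pos h5 2).ne').const_mul c).congr_deriv ?_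
    simp only [hwt, Pi.pow_apply, Pi.mul_apply, Function.comp_apply]
    field_simp
    simp only [Nat.cast_ofNat, Nat.add_one_sub_one]
    ring
  have hx : ∀ θ, xx y θ ≠ 0 := fun θ => (xx_pos hy θ).ne'
  have hI : IntervalIntegrable (fun θ => wt y θ * (g (xx y θ) + 2 * g (xx y θ) *
      (bet y - xx y θ) / xx y θ - g' (xx y θ) * (bet y - xx y θ)) +
      c * (g (xx y θ) * (bet y - xx y θ) * cos θ / xx y θ ^ 2)) volume 0 p := by
    refine Continuous.intervalIntegrable ?_ _ _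
    have hx2 : ∀ θ, xx y θ ^ 2 ≠ 0 := fun θ => pow_ne_zero 2 (hx θ)
    have c3 : Continuous fun θ => bet y - xx y θ := by fun_prop
    exact (hw.mul ((c1.add (((continuous_const.mul c1).mul c3).div (continuous_xx y) hx)).sub
      (c2.mul c3))).add (continuous_const.mul (((c1.mul c3).mul continuous_cos).div
        ((continuous_xx y).pow 2) hx2))
  have hF := integral_eq_sub_of_hasDerivAt (a := 0) (b := p) (fun θ _ => hd θ) hI
  have hP : 0 ≤ c * (g (xx y p) * (bet y - xx y p) * sin p / xx y p ^ 2) := by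
    have e1 := h0 p ⟨hp0, le_rfl⟩
    have e2 := sub_nonneg.2 (xx_le_bet hy p)
    have e3 := sin_nonneg_of_nonneg_of_le_pi hp0 hp
    positivity
  simp only [sin_zero, mul_zero, zero_div, sub_zero] at hF
  refine (hP.trans hF.ge).trans (integral_mono_on hp0 hI
    (J_int hy (cont_ibp (bet y) hgc hc) 0 p) fun θ hθ => ?_)
  · have h5 := xx_pos hy θ
    have h6 := h0 θ hθ
    have h7 := sin_sq_add_cos_sq θ
    have h8 := cos_le_one θ
    have hv : bet y - xx y θ = 2 * √(1 + y) * (1 - cos θ) := by rw [hb, xx]; ring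
    have key : (bet y - xx y θ) * cos θ * xx y θ ≤
        √(1 + y) * sin θ ^ 2 * (xx y θ - (bet y - xx y θ)) := by
      have e1 : sin θ ^ 2 = (1 - cos θ) * (1 + cos θ) := by linarith
      have e2 : 0 ≤ √(1 + y) * (1 - cos θ) ^ 2 * (√(1 + y) - 1) ^ 2 := by positivity
      have e3 : xx y θ = 1 + √(1 + y) ^ 2 + 2 * √(1 + y) * cos θ := by rw [xx, h2]; ring
      rw [hv, e1, e3]
      linarith
    have e4 : wt y θ * (3 / 2 * bet y * g (xx y θ) / xx y θ - g' (xx y θ) * (bet y - xx y θ)) -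
        (wt y θ * (g (xx y θ) + 2 * g (xx y θ) * (bet y - xx y θ) / xx y θ -
        g' (xx y θ) * (bet y - xx y θ)) +
        c * (g (xx y θ) * (bet y - xx y θ) * cos θ / xx y θ ^ 2)) =
        c * g (xx y θ) / xx y θ ^ 3 * (√(1 + y) * sin θ ^ 2 * (xx y θ - (bet y - xx y θ)) -
          (bet y - xx y θ) * cos θ * xx y θ) := by
      rw [hwt]
      field_simp
      ring
    have e5 : 0 ≤ c * g (xx y θ) / xx y θ ^ 3 * (√(1 + y) * sin θ ^ 2 *
        (xx y θ - (bet y - xx y θ)) - (bet y - xx y θ) * cos θ * xx y θ) :=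
      mul_nonneg (by positivity) (sub_nonneg.2 key)
    linarith

lemma cos_two_thirds : cos (2 * π / 3) = - (1 / 2) := by
  rw [show 2 * π / 3 = π - π / 3 by ring, cos_pi_sub, cos_pi_div_three]

lemma p_nonneg : 0 ≤ 2 * π / 3 := by positivity

lemma p_le : 2 * π / 3 ≤ π := by linarith [pi_pos]

lemma rangeR (hy : 0 < y) {θ : ℝ} (hθ : θ ∈ Icc 0 (2 * π / 3)) : 1 ≤ xx y θ := by
  have h1 := one_lt_sqrt hy
  have h2 := sqrt_sq' hy
  have h3 := cos_le_cos_of_nonneg_of_le_pi hθ.1 p_le hθ.2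
  rw [cos_two_thirds] at h3
  rw [xx]
  nlinarith

lemma rangeL (hy : 0 < y) {θ : ℝ} (hθ : θ ∈ Icc (2 * π / 3) π) : xx y θ ≤ 1 + y := by
  have h1 := one_lt_sqrt hy
  have h3 := cos_le_cos_of_nonneg_of_le_pi p_nonneg hθ.2 hθ.1
  rw [cos_two_thirds] at h3
  rw [xx]
  nlinarith

lemma bet_le (hy : 0 < y) : bet y ≤ 4 + 2 * y := by
  have h2 := sqrt_sq' hy
  rw [bet_eq hy]
  nlinarith [sq_nonneg (√(1 + y) - 1)]

lemma J_id (hy : 0 < y) : J y 0 (2 * π / 3) (fun t => t) + J y (2 * π / 3) π (fun t => t) = y := by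
  rw [← J_add hy (g := fun t => t) continuousOn_id]
  exact mom_one hy

lemma J_pow (hy : 0 < y) (r : ℕ) : J y 0 π (fun t => t ^ r) = mm (-y) r := mom hy r

lemma lower (hy : 0 < y) (hy1 : y ≤ 1 / 1000) {K : ℝ} (hK : 0 ≤ K) {g : ℝ → ℝ}
    (hg : ContinuousOn g (Ioi 0)) (h0 : ∀ t ∈ Icc 1 (bet y), 0 ≤ g t)
    (h1 : ∀ t ∈ Icc 3.41 (bet y), K ≤ g t) : 0.0056 * y * K ≤ J y 0 (2 * π / 3) g := by
  have hpi := pi_gt_d2
  have hq0 : 0 ≤ π / 4 := by positivity
  have hq : π / 4 ≤ 2 * π / 3 := by linarith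
  have a1 : 0 ≤ J y (π / 4) (2 * π / 3) g :=
    J_nonneg hy hq fun θ hθ => h0 _ ⟨rangeR hy ⟨hq0.trans hθ.1, hθ.2⟩, xx_le_bet hy θ⟩
  have a2 : ∫ θ in (0 : ℝ)..π / 4, 2 / π * y / 16.02 * K * sin θ ^ 2 ≤ J y 0 (π / 4) g := by
    refine integral_mono_on hq0 (Continuous.intervalIntegrable (by fun_prop) _ _)
      (J_int hy hg _ _) fun θ hθ => ?_
    have b1 := one_lt_sqrt hy
    have b2 := cos_le_cos_of_nonneg_of_le_pi hθ.1 (by linarith) hθ.2
    rw [cos_pi_div_four] at b2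
    have b3 : (1.41 : ℝ) ≤ √2 := by
      rw [Real.le_sqrt (by norm_num) (by norm_num)]
      norm_num
    have b4 : 3.41 ≤ xx y θ := by
      rw [xx]
      nlinarith
    have b5 := xx_le_bet hy θ
    have b6 := bet_le hy
    have b7 : xx y θ ^ 2 ≤ 16.02 := by nlinarith
    have b8 : 2 / π * y / 16.02 * sin θ ^ 2 ≤ wt y θ := by
      rw [wt, div_mul_eq_mul_div]
      refine div_le_div₀ (by positivity) ?_ (by positivity) b7
      gcongr
      nlinarith
    calc 2 / π * y / 16.02 * K * sin θ ^ 2 = 2 / π * y / 16.02 * sin θ ^ 2 * K := by ring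
      _ ≤ wt y θ * g (xx y θ) := mul_le_mul b8 (h1 _ ⟨b4, b5⟩) hK (wt_nonneg hy θ)
  rw [intervalIntegral.integral_const_mul, integral_sin_sq, sin_pi_div_four, cos_pi_div_four,
    sin_zero] at a2
  have a3 : √2 / 2 * (√2 / 2) = 1 / 2 := by
    have := Real.mul_self_sqrt (show (0 : ℝ) ≤ 2 by norm_num)
    linarith
  rw [a3] at a2
  have a4 : 0.0056 * y * K ≤ 2 / π * y / 16.02 * K * ((0 * cos 0 - 1 / 2 + π / 4 - 0) / 2) := by
    have e : 2 / π * y / 16.02 * K * ((0 * cos 0 - 1 / 2 + π / 4 - 0) / 2) =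
        (π / 4 - 1 / 2) / (16.02 * π) * y * K := by
      field_simp
      ring
    rw [e]
    gcongr
    rw [le_div_iff₀ (by positivity)]
    linarith
  rw [J_add hy hg 0 (π / 4)]
  linarith

lemma tilt (hy : 0 < y) {X : ℝ} (hX : 3 / 2 < X) {G G' : ℝ → ℝ}
    (hG : ∀ t, 0 < t → HasDerivAt G (G' t) t) (hc : ContinuousOn G' (Ioi 0))
    (h0 : ∀ t, 0 < t → 0 ≤ G t) (h1 : ∀ t ∈ Icc 1 (bet y), X * G t ≤ G' t) :
    J y 0 (2 * π / 3) (fun t => (bet y - t) * G t) ≤ 3 / 2 / (X - 3 / 2) * J y 0 (2 * π / 3) G ∧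
    J y 0 (2 * π / 3) (fun t => (bet y - t) ^ 2 * G t) ≤
      5 / 2 / (X - 3 / 2) * J y 0 (2 * π / 3) (fun t => (bet y - t) * G t) := by
  have hgc : ContinuousOn G (Ioi 0) := fun t ht => (hG t ht).continuousAt.continuousWithinAt
  have hX0 : 0 < X - 3 / 2 := by linarith
  have hq : ∀ θ ∈ Icc 0 (2 * π / 3), ∀ u : ℝ, 0 ≤ u →
      3 / 2 * bet y * u / xx y θ ≤ 3 / 2 * (1 + (bet y - xx y θ)) * u := by
    intro θ hθ u hu
    have e1 := rangeR hy hθ
    have e2 := sub_nonneg.2 (xx_le_bet hy θ)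
    rw [div_le_iff₀ (by linarith)]
    have e3 : 0 ≤ u * ((bet y - xx y θ) * (xx y θ - 1)) :=
      mul_nonneg hu (mul_nonneg e2 (by linarith))
    nlinarith
  constructor
  · have k1 := ibp hy hG hc p_nonneg p_le fun θ _ => h0 _ (xx_pos hy θ)
    have k2 := k1.trans (J_mono hy (h := fun t => 3 / 2 * G t - (X - 3 / 2) * ((bet y - t) * G t))
      (cont_ibp (bet y) hgc hc) (by fun_prop) p_nonneg fun θ hθ => by
      have e1 := hq θ hθ _ (h0 _ (xx_pos hy θ))
      have e2 := mul_le_mul_of_nonneg_right (h1 _ ⟨rangeR hy hθ, xx_le_bet hy θ⟩)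
        (sub_nonneg.2 (xx_le_bet hy θ))
      linarith)
    rw [J_lin hy hgc (by fun_prop)] at k2
    rw [div_mul_eq_mul_div, le_div_iff₀ hX0]
    linarith
  · have k1 := ibp hy (g := fun t => (bet y - t) * G t) (g' := fun t => (bet y - t) * G' t - G t)
      (fun t ht => by
        refine (((hasDerivAt_id t).const_sub (bet y)).mul (hG t ht)).congr_deriv ?_
        simp only [id]
        ring) (by fun_prop) p_nonneg p_le
      fun θ _ => mul_nonneg (sub_nonneg.2 (xx_le_bet hy θ)) (h0 _ (xx_pos hy θ))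
    have k2 := k1.trans (J_mono hy
      (h := fun t => 5 / 2 * ((bet y - t) * G t) - (X - 3 / 2) * ((bet y - t) ^ 2 * G t))
      (cont_ibp (bet y) (g := fun t => (bet y - t) * G t)
        (g' := fun t => (bet y - t) * G' t - G t) (by fun_prop) (by fun_prop))
      (by fun_prop) p_nonneg fun θ hθ => by
      have e0 := sub_nonneg.2 (xx_le_bet hy θ)
      have e1 := hq θ hθ _ (mul_nonneg e0 (h0 _ (xx_pos hy θ)))
      have e2 := mul_le_mul_of_nonneg_right (h1 _ ⟨rangeR hy hθ, xx_le_bet hy θ⟩)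
        (sq_nonneg (bet y - xx y θ))
      linarith)
    rw [J_lin hy (by fun_prop) (by fun_prop)] at k2
    rw [div_mul_eq_mul_div, le_div_iff₀ hX0]
    linarith

lemma mm_pos (hy : 0 < y) (r : ℕ) : 0 < mm (-y) r := by
  have h1 := one_lt_sqrt hy
  have h2 : 0 < ((√(1 + y) - 1) ^ 2) ^ r := pow_pos (pow_pos (sub_pos.2 h1) 2) r
  have h3 := J_mono hy (g := fun t => ((√(1 + y) - 1) ^ 2) ^ r * t ^ 0) (h := fun t => t ^ r)
    (by fun_prop) (by fun_prop) pi_pos.le fun θ _ => by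
      rw [pow_zero, mul_one]
      exact pow_le_pow_left₀ (sq_nonneg _) (le_xx hy θ) r
  rw [J_mul, J_pow hy, J_pow hy] at h3
  have h4 : mm (-y) 0 = 1 := by simp [mm]
  rw [h4] at h3
  linarith

lemma mm_up (hy : 0 < y) (r : ℕ) : mm (-y) (r + 1) ≤ bet y * mm (-y) r := by
  have h3 := J_mono hy (g := fun t => t ^ (r + 1)) (h := fun t => bet y * t ^ r)
    (by fun_prop) (by fun_prop) pi_pos.le fun θ _ => by
      rw [pow_succ']
      exact mul_le_mul_of_nonneg_right (xx_le_bet hy θ) (pow_pos (xx_pos hy θ) r).le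
  rwa [J_mul, J_pow hy, J_pow hy] at h3

lemma mm_low (hy : 0 < y) {r : ℕ} (hr : 1 ≤ r) :
    bet y * mm (-y) r ≤ mm (-y) (r + 1) * (1 + 6 / (r + 1)) := by
  have k1 := ibp hy (g := fun t => t ^ (r + 1)) (g' := fun t => ((r : ℝ) + 1) * t ^ r)
    (fun t _ => by simpa using hasDerivAt_pow (r + 1) t) (by fun_prop) pi_pos.le le_rfl
    fun θ _ => (pow_pos (xx_pos hy θ) _).le
  have k2 := k1.trans (J_mono hy
    (h := fun t => ((r : ℝ) + 1) * t ^ (r + 1) - ((r - 1 / 2) * bet y) * t ^ r)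
    (cont_ibp (bet y) (g := fun t => t ^ (r + 1)) (g' := fun t => ((r : ℝ) + 1) * t ^ r)
      (by fun_prop) (by fun_prop)) (by fun_prop) pi_pos.le fun θ _ => by
    have := xx_pos hy θ
    refine le_of_eq ?_
    field_simp
    ring)
  rw [J_lin hy (by fun_prop) (by fun_prop), J_pow hy, J_pow hy] at k2
  have h1 : (1 : ℝ) ≤ r := by exact_mod_cast hr
  have h2 := mm_pos hy (r + 1)
  have e : mm (-y) (r + 1) * (1 + 6 / (r + 1)) = mm (-y) (r + 1) * (r + 7) / (r + 1) := by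
    field_simp
    ring
  rw [e, le_div_iff₀ (by linarith)]
  refine le_of_mul_le_mul_left ?_ (show (0 : ℝ) < r - 1 / 2 by linarith)
  have h3 := mul_le_mul_of_nonneg_left k2 (show (0 : ℝ) ≤ r + 1 by linarith)
  have h4 := mul_nonneg h2.le (sub_nonneg.2 h1)
  nlinarith

theorem meas : MeasStmt where
  bet_ge y hy := by
    rw [bet_eq hy]
    linarith [one_lt_sqrt hy]
  bet_le _ hy := bet_le hy
  rangeR _ _ hy hθ := rangeR hy hθ
  rangeL _ _ hy hθ := rangeL hy hθ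
  split _ _ hy hg := J_add hy hg 0 (2 * π / 3) π
  monoR _ _ _ hy hg hh H :=
    J_mono hy hg hh p_nonneg fun θ hθ => H _ ⟨rangeR hy hθ, xx_le_bet hy θ⟩
  massR y hy := by
    have h1 := J_mono hy (g := fun _ => 1) (h := fun t => t) continuousOn_const continuousOn_id
      p_nonneg fun θ hθ => rangeR hy hθ
    have h2 := J_nonneg hy (g := fun t => t) p_le fun θ _ => (xx_pos hy θ).le
    have h3 := J_id hy
    exact h1.trans (by linarith)
  smallL y K g hy hK hg H := by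
    have h1 := J_mono hy (h := fun t => K * t) hg (by fun_prop) p_le
      fun θ hθ => H _ ⟨xx_pos hy θ, rangeL hy hθ⟩
    rw [J_mul y _ _ K fun t => t] at h1
    have h2 := J_nonneg hy (g := fun t => t) p_nonneg fun θ _ => (xx_pos hy θ).le
    have h3 := J_id hy
    exact h1.trans (mul_le_mul_of_nonneg_left (by linarith) hK)
  lower _ _ _ hy hy1 hK hg h0 h1 := lower hy hy1 hK hg h0 h1
  tilt _ _ _ _ hy hX hG hc h0 h1 := tilt hy hX hG hc h0 h1
  mm_pos _ r hy := mm_pos hy r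
  mm_up _ r hy := mm_up hy r
  mm_low _ _ hy hr := mm_low hy hr

end Pool.Agent.MP_dbd6a6_co.H78
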